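import Pool.Agent.Helper69.BQ.Final

/-!
# The indecomposable `𝔽₂[C₂ × C₂]`-modules in class groups of biquadratic fields

An indecomposable `𝔽₂[C₂ × C₂]`-module is isomorphic to a direct summand of `Cl(K)[2]` for some
biquadratic field `K` if and only if it is not free and its core (the intersection of the images of
`1 + g`, `g ≠ 1`) has dimension at most 5. Up to twists by automorphisms of `C₂ × C₂` these are 24
explicit modules: the syzygies `Ωⁿ(𝔽₂)`, `-7 ≤ n ≤ 5`, and eleven modules of even dimension.

The definitions used in the statement are in `Pool/Agent/Helper69/BQ/Basic.lean`.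
-/

namespace Pool.Agent.Results.MP_282bb6_nt.ExactList

open Module Pool.Agent.Helper69.BQ

/-- For a representation `ρ` of `C₂ × C₂` on a finite-dimensional vector space over `𝔽₂` the
following are equivalent: `ρ` is indecomposable and arises from a biquadratic field; `ρ` is
indecomposable, the norm element acts as zero and the core has dimension at most 5; `ρ` is, up to a
twist, isomorphic to a member of the list. -/
theorem result {V : Type} [AddCommGroup V] [Module (ZMod 2) V] [FiniteDimensional (ZMod 2) V]
    (ρ : Representation (ZMod 2) C22 V) :
    List.TFAE [Indecomposable ρ ∧ Arises ρ,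
      Indecomposable ρ ∧ (∀ v, ∑ g : C22, ρ g v = 0) ∧ finrank (ZMod 2) (repCore ρ) ≤ 5,
      OnList ρ] :=
  main_full ρ

end Pool.Agent.Results.MP_282bb6_nt.ExactList
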