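import Pool.Agent.Helper25.BiqFamily

/-!
# Only finitely many indecomposable modules arise in class groups of biquadratic fields

Everything the statement of `result` uses beyond Mathlib is defined in this file.
-/

namespace Pool.Agent.Results.MP_282bb6_nt.FiniteList

open Module NumberField Pool.Agent.Helper25.Biq Pool.Agent.Helper25

/-- The group `C₂ × C₂`, written multiplicatively. -/
abbrev C22 : Type := Multiplicative (ZMod 2 × ZMod 2)

/-- A representation over `𝔽₂` is indecomposable if it is nonzero and not the direct sum of two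
nonzero stable subspaces. -/
def Indecomposable {G V : Type} [Group G] [AddCommGroup V] [Module (ZMod 2) V]
    (ρ : Representation (ZMod 2) G V) : Prop :=
  Nontrivial V ∧ ∀ p q : Submodule (ZMod 2) V, (∀ g, ∀ v ∈ p, ρ g v ∈ p) →
    (∀ g, ∀ v ∈ q, ρ g v ∈ q) → IsCompl p q → p = ⊥ ∨ q = ⊥

/-- The sum of the images of the maps `v ↦ v + g v` (the radical of the module). -/
def repRad {V : Type} [AddCommGroup V] [Module (ZMod 2) V]
    (ρ : Representation (ZMod 2) C22 V) : Submodule (ZMod 2) V :=
  ⨆ g : C22, LinearMap.range (LinearMap.id + ρ g)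

/-- The intersection of the images of the maps `v ↦ v + g v`, `g ≠ 1`. -/
def repCore {V : Type} [AddCommGroup V] [Module (ZMod 2) V]
    (ρ : Representation (ZMod 2) C22 V) : Submodule (ZMod 2) V :=
  ⨅ g : {g : C22 // g ≠ 1}, LinearMap.range (LinearMap.id + ρ g)

/-- The five numerical types. -/
def Types (d w f : ℕ) : Prop :=
  (d = 1 ∧ w = 0) ∨ (d = 2 * w ∧ f = w) ∨ (d = 2 * w ∧ f + 1 = w) ∨ (d = 2 * w + 1 ∧ f = w) ∨
    (d + 1 = 2 * w ∧ w ≤ f + 3)

/-- The action of an automorphism of `K` on the class group of the ring of integers of `K`. -/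
noncomputable def galAct {K : Type} [Field K] [NumberField K] (g : K ≃ₐ[ℚ] K) :
    ClassGroup (𝓞 K) ≃* ClassGroup (𝓞 K) :=
  ClassGroup.mulEquiv (RingOfIntegers.mapRingEquiv g.toRingEquiv)

/-- The equivariance relation between `ρ` on `V` and the Galois action on the 2-torsion of the
class group (used in the proof only). -/
def Equivariant {V K : Type} [AddCommGroup V] [Module (ZMod 2) V] [Field K] [NumberField K]
    (φ : C22 ≃* (K ≃ₐ[ℚ] K)) (ρ : Representation (ZMod 2) C22 V) (i : V →ₗ[ZMod 2] TT K) : Prop :=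
  ∀ g v, i (ρ g v) = act (φ g) (i v)

section transport

variable {V K : Type} [AddCommGroup V] [Module (ZMod 2) V] [Field K] [NumberField K]
  {φ : C22 ≃* (K ≃ₐ[ℚ] K)} {ρ : Representation (ZMod 2) C22 V} {i : V →ₗ[ZMod 2] TT K}

lemma stable_range (hi : Equivariant φ ρ i) : Stable (LinearMap.range i) := by
  rintro g _ ⟨v, rfl⟩
  refine ⟨ρ (φ.symm g) v, ?_⟩
  rw [hi, φ.apply_symm_apply]

lemma indecSub_range (hind : Indecomposable ρ) (hi : Equivariant φ ρ i)
    (hinj : Function.Injective i) : IndecSub (LinearMap.range i) := by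
  refine ⟨?_, ?_⟩
  · intro h0
    obtain ⟨v, hv⟩ := @exists_ne V hind.1 0
    apply hv
    apply hinj
    rw [map_zero]
    have : i v ∈ LinearMap.range i := ⟨v, rfl⟩
    rw [h0] at this
    exact (Submodule.mem_bot _).1 this
  · intro p q hp hq hpq hsup
    have hpL : p ≤ LinearMap.range i := hsup ▸ le_sup_left
    have hqL : q ≤ LinearMap.range i := hsup ▸ le_sup_right
    have mp : (p.comap i).map i = p := by
      rw [Submodule.map_comap_eq, inf_eq_right]; exact hpL
    have mq : (q.comap i).map i = q := by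
      rw [Submodule.map_comap_eq, inf_eq_right]; exact hqL
    have hst : ∀ s : Submodule (ZMod 2) (TT K), Stable s → ∀ g, ∀ v ∈ s.comap i,
        ρ g v ∈ s.comap i := by
      intro s hs g v hv
      show i (ρ g v) ∈ s
      rw [hi]
      exact hs _ _ hv
    rcases hind.2 (p.comap i) (q.comap i) (hst p hp) (hst q hq) (by
      constructor
      · rw [disjoint_iff, ← Submodule.comap_inf, hpq, Submodule.comap_bot,
          LinearMap.ker_eq_bot.2 hinj]
      · rw [codisjoint_iff]
        apply Submodule.map_injective_of_injective hinj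
        rw [Submodule.map_sup, mp, mq, hsup, Submodule.map_top]) with h1 | h1
    · left; rw [← mp, h1, Submodule.map_bot]
    · right; rw [← mq, h1, Submodule.map_bot]

lemma map_range (hi : Equivariant φ ρ i) (g : C22) :
    (LinearMap.range (LinearMap.id + ρ g)).map i = (LinearMap.range i).map (X (φ g)) := by
  ext x
  constructor
  · rintro ⟨_, ⟨v, rfl⟩, rfl⟩
    refine ⟨i v, ⟨v, rfl⟩, ?_⟩
    rw [X_apply, LinearMap.add_apply, LinearMap.id_apply, map_add, hi]
  · rintro ⟨_, ⟨v, rfl⟩, rfl⟩
    refine ⟨_, ⟨v, rfl⟩, ?_⟩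
    rw [X_apply, LinearMap.add_apply, LinearMap.id_apply, map_add, hi]

lemma map_rad (hi : Equivariant φ ρ i) : (repRad ρ).map i = rad (LinearMap.range i) := by
  rw [repRad, rad, Submodule.map_iSup]
  simp only [map_range hi]
  exact φ.toEquiv.iSup_comp (g := fun g => (LinearMap.range i).map (X g))

lemma map_core (hi : Equivariant φ ρ i) (hinj : Function.Injective i) :
    (repCore ρ).map i = core (LinearMap.range i) := by
  apply le_antisymm
  · apply le_iInf
    rintro ⟨g, hg⟩
    have h1 : φ.symm g ≠ 1 := by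
      intro h1
      apply hg
      rw [← φ.apply_symm_apply g, h1, map_one]
    have h2 : repCore ρ ≤ LinearMap.range (LinearMap.id + ρ (φ.symm g)) :=
      iInf_le (fun g : {g : C22 // g ≠ 1} => LinearMap.range (LinearMap.id + ρ g)) ⟨_, h1⟩
    have h3 := Submodule.map_mono (f := i) h2
    rw [map_range hi, φ.apply_symm_apply] at h3
    exact h3
  · intro y hy
    have hy' : ∀ g : C22, g ≠ 1 → y ∈ (LinearMap.range (LinearMap.id + ρ g)).map i := by
      intro g hg
      rw [map_range hi]
      have h1 : φ g ≠ 1 := by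
        intro h1
        apply hg
        rw [← φ.symm_apply_apply g, h1, map_one]
      exact (Submodule.mem_iInf _).1 hy ⟨φ g, h1⟩
    have hne : (Multiplicative.ofAdd ((1, 0) : ZMod 2 × ZMod 2) : C22) ≠ 1 := by decide
    obtain ⟨u, hu, rfl⟩ := hy' _ hne
    refine ⟨u, ?_, rfl⟩
    apply (Submodule.mem_iInf _).2
    rintro ⟨g, hg⟩
    obtain ⟨u', hu', huu⟩ := hy' g hg
    rw [← hinj huu]
    exact hu'

lemma finrank_map_inj (hinj : Function.Injective i) (s : Submodule (ZMod 2) V) :
    finrank (ZMod 2) (s.map i) = finrank (ZMod 2) s := by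
  have hfd : FiniteDimensional (ZMod 2) V := FiniteDimensional.of_injective i hinj
  have h1 := Kron.finrank_map_add i s
  rw [LinearMap.ker_eq_bot.2 hinj, inf_bot_eq, finrank_bot] at h1
  omega

end transport

/-- Turning a group homomorphism to the class group into a linear map to its 2-torsion. -/
lemma exists_lin {W K : Type} [AddCommGroup W] [Module (ZMod 2) W] [Field K] [NumberField K]
    (i : Multiplicative W →* ClassGroup (𝓞 K)) :
    ∃ i' : W →ₗ[ZMod 2] TT K, ∀ v, (i' v).val = i (Multiplicative.ofAdd v) := by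
  have h2 : ∀ v : W, i (Multiplicative.ofAdd v) ^ 2 = 1 := by
    intro v
    rw [← map_pow, ← ofAdd_nsmul]
    have : (2 : ℕ) • v = 0 := by
      rw [← Nat.cast_smul_eq_nsmul (ZMod 2)]
      have : ((2 : ℕ) : ZMod 2) = 0 := by decide
      rw [this, zero_smul]
    rw [this, ofAdd_zero, map_one]
  refine ⟨AddMonoidHom.toZModLinearMap 2
    { toFun := fun v => TT.mk (i (Multiplicative.ofAdd v)) (h2 v)
      map_zero' := TT.val_injective (by rw [TT.val_mk, TT.val_zero, ofAdd_zero, map_one])
      map_add' := fun u v => TT.val_injective (by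
        rw [TT.val_mk, TT.val_add, TT.val_mk, TT.val_mk, ofAdd_add, map_mul]) }, ?_⟩
  intro v
  exact TT.val_mk _ _

/-- Let `M₁, …, M_r` be indecomposable `𝔽₂[C₂ × C₂]`-modules whose direct sum embeds equivariantly
in the class group of `K`. Then each of them has one of five numerical types, and the sum of their
core dimensions is at most `5`, and at most `3` if `K` is totally complex. -/
theorem result (K : Type) [Field K] [NumberField K] [IsGalois ℚ K] (φ : C22 ≃* (K ≃ₐ[ℚ] K))
    (r : ℕ) (V : Fin r → Type) [∀ j, AddCommGroup (V j)] [∀ j, Module (ZMod 2) (V j)]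
    (ρ : ∀ j, Representation (ZMod 2) C22 (V j)) (hρ : ∀ j, Indecomposable (ρ j))
    (i : Multiplicative (∀ j, V j) →* ClassGroup (𝓞 K)) (hinj : Function.Injective i)
    (hi : ∀ (g : C22) (v : ∀ j, V j), i (Multiplicative.ofAdd fun j => ρ j g (v j)) =
      galAct (φ g) (i (Multiplicative.ofAdd v))) :
    (∀ j, Types (finrank (ZMod 2) (V j)) (finrank (ZMod 2) (repRad (ρ j)))
      (finrank (ZMod 2) (repCore (ρ j)))) ∧
    ∑ j, finrank (ZMod 2) (repCore (ρ j)) ≤ 5 ∧
    (IsTotallyComplex K → ∑ j, finrank (ZMod 2) (repCore (ρ j)) ≤ 3) := by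
  have hKF : IsKleinFour (K ≃ₐ[ℚ] K) :=
    { card_four := by rw [← Nat.card_congr φ.toEquiv]; exact IsKleinFour.card_four
      exponent_two := by
        rw [← Monoid.exponent_eq_of_mulEquiv φ]; exact IsKleinFour.exponent_two }
  obtain ⟨i', hi'⟩ := exists_lin i
  have hinj' : Function.Injective i' := by
    intro u v huv
    have h1 : (i' u).val = (i' v).val := by rw [huv]
    rw [hi', hi'] at h1
    exact Multiplicative.ofAdd.injective (hinj h1)
  have heq : ∀ g (v : ∀ j, V j), i' (fun j => ρ j g (v j)) = act (φ g) (i' v) := by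
    intro g v
    apply TT.val_injective
    rw [hi', hi, val_act, hi']
    rfl
  let s : ∀ j, V j →ₗ[ZMod 2] TT K := fun j => i'.comp (LinearMap.single (ZMod 2) V j)
  have hs : ∀ j, Equivariant φ (ρ j) (s j) := by
    intro j g v
    show i' (Pi.single j (ρ j g v)) = act (φ g) (i' (Pi.single j v))
    rw [← heq]
    congr 1
    funext k
    by_cases hk : k = j
    · subst hk; simp
    · simp [Pi.single_eq_of_ne hk]
  have hsinj : ∀ j, Function.Injective (s j) := fun j =>
    hinj'.comp (Pi.single_injective j)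
  have hI : iSupIndep (fun j => LinearMap.range (s j)) := by
    intro j
    rw [Submodule.disjoint_def]
    rintro _ ⟨v, rfl⟩ hx
    have h1 : (⨆ k, ⨆ _ : k ≠ j, LinearMap.range (s k)) ≤
        (LinearMap.ker (LinearMap.proj (R := ZMod 2) (φ := V) j)).map i' := by
      apply iSup_le
      intro k
      apply iSup_le
      intro hk
      rintro _ ⟨u, rfl⟩
      refine ⟨Pi.single k u, ?_, rfl⟩
      show (Pi.single k u : ∀ j, V j) j = 0
      exact Pi.single_eq_of_ne (Ne.symm hk) u
    obtain ⟨u, hu, hu'⟩ := h1 hx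
    have h2 : u = Pi.single j v := hinj' hu'
    have h3 : u j = 0 := hu
    rw [h2, Pi.single_eq_same] at h3
    rw [h3, map_zero]
  obtain ⟨hty, h5, h3⟩ := family_bound K (Fin r) (fun j => LinearMap.range (s j))
    (fun j => stable_range (hs j)) (fun j => indecSub_range (hρ j) (hs j) (hsinj j)) hI
  have hcore : ∀ j, finrank (ZMod 2) (core (LinearMap.range (s j))) =
      finrank (ZMod 2) (repCore (ρ j)) := by
    intro j
    rw [← map_core (hs j) (hsinj j), finrank_map_inj (hsinj j)]
  have hrad : ∀ j, finrank (ZMod 2) (rad (LinearMap.range (s j))) =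
      finrank (ZMod 2) (repRad (ρ j)) := by
    intro j
    rw [← map_rad (hs j), finrank_map_inj (hsinj j)]
  simp only [hcore, hrad, LinearMap.finrank_range_of_inj (hsinj _)] at hty h5 h3
  exact ⟨hty, h5, h3⟩

end Pool.Agent.Results.MP_282bb6_nt.FiniteList
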